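import Mathlib

/-!
# Brauer's bound for the conductor of a numerical semigroup, and Euler's function

`lc a l` is the list of the numbers `lcm (a i, gcd of the following weights)` along the list `l`,
without the last entry. Every integer `t` divisible by the gcd of the weights in `l`, and at least
`∑ lc + gcd - ∑ a`, is a combination of the weights in `l`.
-/

set_option autoImplicit false

namespace Pool.Agent.W5h90.Fuj

variable {ι : Type*}

/-- the gcd of the weights along a list -/
def gl (a : ι → ℕ) : List ι → ℕ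
  | [] => 0
  | i :: l => Nat.gcd (a i) (gl a l)

/-- the least common multiples of the weights with the gcd of the following weights -/
def lc (a : ι → ℕ) : List ι → List ℕ
  | [] => []
  | [_] => []
  | i :: j :: l => Nat.lcm (a i) (gl a (j :: l)) :: lc a (j :: l)

theorem gl_dvd (a : ι → ℕ) (l : List ι) : ∀ i ∈ l, gl a l ∣ a i := by
  induction l with
  | nil => intro i hi; simp at hi
  | cons j l ih =>
    intro i hi
    rcases List.mem_cons.1 hi with rfl | hi
    · exact Nat.gcd_dvd_left _ _
    · exact (Nat.gcd_dvd_right _ _).trans (ih i hi)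

theorem dvd_gl (a : ι → ℕ) (l : List ι) (g : ℕ) (h : ∀ i ∈ l, g ∣ a i) : g ∣ gl a l := by
  induction l with
  | nil => exact dvd_zero _
  | cons j l ih =>
    exact Nat.dvd_gcd (h j (by simp)) (ih fun i hi => h i (by simp [hi]))

theorem gl_dvd_lc (a : ι → ℕ) (l : List ι) : ∀ x ∈ lc a l, gl a l ∣ x := by
  induction l with
  | nil => intro i hi; simp [lc] at hi
  | cons j l ih =>
    cases l with
    | nil => intro i hi; simp [lc] at hi
    | cons k l =>
      intro x hx
      rw [lc] at hx
      rcases List.mem_cons.1 hx with rfl | hx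
      · exact (Nat.gcd_dvd_left _ _).trans (Nat.dvd_lcm_left _ _)
      · exact (Nat.gcd_dvd_right _ _).trans (ih x hx)

theorem gl_dvd_sum_lc (a : ι → ℕ) (l : List ι) : gl a l ∣ (lc a l).sum :=
  List.dvd_sum (gl_dvd_lc a l)

theorem gl_dvd_sum (a : ι → ℕ) (l : List ι) : gl a l ∣ (l.map a).sum :=
  List.dvd_sum fun x hx => by
    obtain ⟨i, hi, rfl⟩ := List.mem_map.1 hx
    exact gl_dvd a l i hi

theorem gl_pos {a : ι → ℕ} {l : List ι} (hl : l ≠ []) (ha : ∀ i ∈ l, 0 < a i) : 0 < gl a l := by
  obtain ⟨i, hi⟩ := List.exists_mem_of_ne_nil l hl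
  exact Nat.pos_of_dvd_of_pos (gl_dvd a l i hi) (ha i hi)

/-- Brauer's bound. -/
theorem brauer (a : ι → ℕ) : ∀ (l : List ι), l ≠ [] → (∀ i ∈ l, 0 < a i) → ∀ t : ℤ,
    (gl a l : ℤ) ∣ t → ((lc a l).sum : ℤ) + gl a l ≤ t + ((l.map a).sum : ℕ) →
    ∃ w : ι →₀ ℕ, (∀ i, w i ≠ 0 → i ∈ l) ∧ ((Finsupp.weight a w : ℕ) : ℤ) = t := by
  intro l
  induction l with
  | nil => intro h; exact absurd rfl h
  | cons i l ih =>
    intro _ ha t hg ht
    cases l with
    | nil =>
      simp only [lc, gl, List.sum_nil, Nat.gcd_zero_right, List.map_cons, List.map_nil,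
        List.sum_cons, add_zero, Nat.cast_zero, zero_add] at ht hg
      obtain ⟨u, rfl⟩ := hg
      have h1 : 0 < a i := ha i (by simp)
      have h2 : 0 ≤ u := by
        by_contra hcon
        push Not at hcon
        have h3 : (a i : ℤ) * u ≤ (a i : ℤ) * (-1) :=
          mul_le_mul_of_nonneg_left (by omega) (by positivity)
        have h4 : (0 : ℤ) < a i := by exact_mod_cast h1
        linarith
      obtain ⟨u, rfl⟩ := Int.eq_ofNat_of_zero_le h2
      refine ⟨Finsupp.single i u, ?_, ?_⟩
      · intro j hj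
        by_contra hne
        rw [List.mem_singleton] at hne
        exact hj (Finsupp.single_eq_of_ne hne)
      · rw [Finsupp.weight_single, smul_eq_mul]
        push_cast
        ring
    | cons k l =>
      set l' := k :: l with hl'
      have hl0 : l' ≠ [] := by simp [hl']
      have ha' : ∀ i ∈ l', 0 < a i := fun j hj => ha j (by simp [hj])
      have hai : 0 < a i := ha i (by simp)
      have hlc : lc a (i :: l') = Nat.lcm (a i) (gl a l') :: lc a l' := rfl
      have hgl : gl a (i :: l') = Nat.gcd (a i) (gl a l') := rfl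
      rw [hgl] at hg ht
      rw [hlc, List.sum_cons, List.map_cons, List.sum_cons] at ht
      have hg' := gl_pos hl0 ha'
      set G := gl a l' with hG
      set q := G / Nat.gcd (a i) G with hq
      have hq0 : 0 < q := Nat.div_pos (Nat.le_of_dvd hg' (Nat.gcd_dvd_right _ _))
        (Nat.gcd_pos_of_pos_left _ hai)
      have hqa : q * a i = Nat.lcm (a i) G := by
        rw [Nat.lcm, hq, mul_comm, Nat.mul_div_assoc _ (Nat.gcd_dvd_right _ _)]
      -- solve `u * a i ≡ t` modulo `G`
      obtain ⟨u, hu, hut⟩ : ∃ u : ℕ, u < q ∧ (G : ℤ) ∣ t - u * a i := by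
        have h1 : ((Nat.gcd (a i) G : ℕ) : ℤ) = a i * Nat.gcdA (a i) G + G * Nat.gcdB (a i) G :=
          Nat.gcd_eq_gcd_ab _ _
        obtain ⟨s, hs⟩ := hg
        refine ⟨((s * Nat.gcdA (a i) G) % (q : ℤ)).toNat, ?_, ?_⟩
        · have h2 := Int.emod_lt_of_pos (s * Nat.gcdA (a i) G) (by exact_mod_cast hq0 : (0:ℤ) < q)
          have h3 := Int.emod_nonneg (s * Nat.gcdA (a i) G)
            (by exact_mod_cast hq0.ne' : (q : ℤ) ≠ 0)
          omega
        · have h3 := Int.emod_nonneg (s * Nat.gcdA (a i) G)
            (by exact_mod_cast hq0.ne' : (q : ℤ) ≠ 0)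
          rw [Int.toNat_of_nonneg h3]
          have h4 := Int.emod_add_mul_ediv (s * Nat.gcdA (a i) G) (q : ℤ)
          have h5 : t - (s * Nat.gcdA (a i) G) % (q : ℤ) * a i
              = G * (Nat.gcdB (a i) G * s)
                + (q * a i : ℕ) * (s * Nat.gcdA (a i) G / (q : ℤ)) := by
            have h6 : (s * Nat.gcdA (a i) G) % (q : ℤ)
                = s * Nat.gcdA (a i) G - q * (s * Nat.gcdA (a i) G / (q : ℤ)) := by linarith
            rw [h6, hs, h1]
            push_cast
            ring
          rw [h5]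
          refine dvd_add (dvd_mul_right _ _) (Dvd.dvd.mul_right ?_ _)
          rw [hqa]
          exact_mod_cast Nat.dvd_lcm_right _ _
      have h1 : ((u * a i : ℕ) : ℤ) + a i ≤ (Nat.lcm (a i) G : ℕ) := by
        rw [← hqa]
        have h2 : (u + 1) * a i ≤ q * a i := Nat.mul_le_mul_right _ hu
        have h3 : (u + 1) * a i = u * a i + a i := by ring
        rw [h3] at h2
        exact_mod_cast h2
      have h2 : ((lc a l').sum : ℤ) + G ≤ (t - u * a i) + ((l'.map a).sum : ℕ) := by
        have h3 : (G : ℤ) ∣ (t - u * a i) + ((l'.map a).sum : ℕ) - ((lc a l').sum : ℤ) := by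
          refine dvd_sub (dvd_add hut ?_) ?_
          · exact_mod_cast gl_dvd_sum a l'
          · exact_mod_cast gl_dvd_sum_lc a l'
        have h4 : (0 : ℤ) < (t - u * a i) + ((l'.map a).sum : ℕ) - ((lc a l').sum : ℤ) := by
          have h5 : (0 : ℤ) < Nat.gcd (a i) G := by
            exact_mod_cast Nat.gcd_pos_of_pos_left _ hai
          push_cast at ht h1 ⊢
          linarith
        have h5 := Int.le_of_dvd h4 h3
        linarith
      obtain ⟨w, hw1, hw2⟩ := ih hl0 ha' (t - u * a i) hut h2
      refine ⟨w + Finsupp.single i u, ?_, ?_⟩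
      · intro j hj
        by_cases hji : j = i
        · rw [hji]; simp
        · rw [Finsupp.add_apply, Finsupp.single_eq_of_ne hji, add_zero] at hj
          exact List.mem_cons_of_mem _ (hw1 j hj)
      · rw [map_add, Finsupp.weight_single, smul_eq_mul]
        push_cast
        linarith

/-! ### Counting with Euler's function -/

theorem sum_eq_totient (M : ℕ) : ∀ xs : List ℕ, (∀ x ∈ xs, 0 < x ∧ x ≤ M) →
    xs.sum = ∑ g ∈ Finset.Icc 1 M, Nat.totient g * xs.countP (fun x => g ∣ x) := by
  intro xs
  induction xs with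
  | nil => intro _; simp
  | cons x xs ih =>
    intro h
    have hx := h x (by simp)
    rw [List.sum_cons, ih fun y hy => h y (by simp [hy])]
    have h1 : x = ∑ g ∈ Finset.Icc 1 M, if g ∣ x then Nat.totient g else 0 := by
      rw [← Finset.sum_filter]
      conv_lhs => rw [← Nat.sum_totient x]
      refine Finset.sum_congr ?_ fun _ _ => rfl
      ext g
      rw [Nat.mem_divisors, Finset.mem_filter, Finset.mem_Icc]
      constructor
      · intro ⟨h1, h2⟩
        exact ⟨⟨Nat.pos_of_dvd_of_pos h1 hx.1, (Nat.le_of_dvd hx.1 h1).trans hx.2⟩, h1⟩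
      · intro ⟨_, h1⟩
        exact ⟨h1, hx.1.ne'⟩
    conv_lhs => rw [h1]
    rw [← Finset.sum_add_distrib]
    refine Finset.sum_congr rfl fun g _ => ?_
    rw [List.countP_cons]
    by_cases hg : g ∣ x
    · simp [hg]; ring
    · simp [hg]

theorem sum_le_of_count {xs ys : List ℕ} {n : ℕ} (hx : ∀ x ∈ xs, 0 < x) (hy : ∀ y ∈ ys, 0 < y)
    (hlen : xs.length ≤ ys.length + n)
    (h : ∀ g, 2 ≤ g → xs.countP (fun x => g ∣ x) ≤ ys.countP (fun x => g ∣ x)) :
    xs.sum ≤ ys.sum + n := by
  have hle : ∀ (zs : List ℕ), ∀ z ∈ zs, z ≤ zs.sum := fun zs z hz => List.single_le_sum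
    (by simp) z hz
  obtain ⟨M, hM⟩ : ∃ M, M = xs.sum + ys.sum + 1 := ⟨_, rfl⟩
  have e1 := sum_eq_totient M xs fun x hx' => ⟨hx x hx', (hle xs x hx').trans (by omega)⟩
  have e2 := sum_eq_totient M ys fun x hx' => ⟨hy x hx', (hle ys x hx').trans (by omega)⟩
  have h0 : 0 < M := by omega
  rw [e1, e2]
  clear e1 e2 hM
  have h1 : Finset.Icc 1 M = insert 1 (Finset.Icc 2 M) := by
    ext g
    simp only [Finset.mem_insert, Finset.mem_Icc]
    omega
  have h2 : (1 : ℕ) ∉ Finset.Icc 2 M := by simp
  rw [h1, Finset.sum_insert h2, Finset.sum_insert h2]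
  have h3 : ∀ zs : List ℕ, zs.countP (fun x => (1 : ℕ) ∣ x) = zs.length := by
    intro zs
    rw [List.countP_eq_length]
    intro x _
    simp
  rw [h3, h3, Nat.totient_one, one_mul, one_mul]
  have h4 : ∑ g ∈ Finset.Icc 2 M, Nat.totient g * xs.countP (fun x => g ∣ x)
      ≤ ∑ g ∈ Finset.Icc 2 M, Nat.totient g * ys.countP (fun x => g ∣ x) :=
    Finset.sum_le_sum fun g hg => Nat.mul_le_mul_left _ (h g (Finset.mem_Icc.1 hg).1)
  omega

theorem prime_pow_dvd_lcm {p t x y : ℕ} (hp : p.Prime) (hx : 0 < x) (hy : 0 < y)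
    (h : p ^ t ∣ Nat.lcm x y) : p ^ t ∣ x ∨ p ^ t ∣ y := by
  rw [hp.pow_dvd_iff_le_factorization (Nat.lcm_pos hx hy).ne',
    Nat.factorization_lcm hx.ne' hy.ne'] at h
  rw [hp.pow_dvd_iff_le_factorization hx.ne', hp.pow_dvd_iff_le_factorization hy.ne']
  simpa using h

/-- the number of multiples of a prime power among the numbers `lc` -/
theorem count_lc {a : ι → ℕ} {p t : ℕ} (hp : p.Prime) : ∀ (l : List ι), l ≠ [] →
    (∀ i ∈ l, 0 < a i) →
    (p ^ t ∣ gl a l → (lc a l).countP (fun x => p ^ t ∣ x) + 1
      = l.countP fun i => p ^ t ∣ a i) ∧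
    (¬ p ^ t ∣ gl a l → (lc a l).countP (fun x => p ^ t ∣ x) = l.countP fun i => p ^ t ∣ a i) := by
  intro l
  induction l with
  | nil => intro h; exact absurd rfl h
  | cons i l ih =>
    intro _ ha
    cases l with
    | nil =>
      simp only [lc, gl, Nat.gcd_zero_right, List.countP_nil, List.countP_cons, zero_add]
      constructor
      · intro h; simp [h]
      · intro h; simp [h]
    | cons k l =>
      set l' := k :: l with hl'
      have hl0 : l' ≠ [] := by simp [hl']
      have ha' : ∀ i ∈ l', 0 < a i := fun j hj => ha j (by simp [hj])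
      have hai : 0 < a i := ha i (by simp)
      have hlc : lc a (i :: l') = Nat.lcm (a i) (gl a l') :: lc a l' := rfl
      have hgl : gl a (i :: l') = Nat.gcd (a i) (gl a l') := rfl
      obtain ⟨ih1, ih2⟩ := ih hl0 ha'
      have hg' := gl_pos hl0 ha'
      rw [hlc, hgl, List.countP_cons, List.countP_cons]
      by_cases h1 : p ^ t ∣ gl a l'
      · have h2 : p ^ t ∣ Nat.lcm (a i) (gl a l') := h1.trans (Nat.dvd_lcm_right _ _)
        by_cases h3 : p ^ t ∣ a i
        · have h4 : p ^ t ∣ Nat.gcd (a i) (gl a l') := Nat.dvd_gcd h3 h1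
          have := ih1 h1
          simp only [h2, h3, h4, decide_true, if_true, not_true, false_implies, and_true,
            forall_const]
          omega
        · have h4 : ¬ p ^ t ∣ Nat.gcd (a i) (gl a l') := fun h => h3 (h.trans (Nat.gcd_dvd_left _ _))
          have := ih1 h1
          simp only [h2, h3, h4, decide_true, decide_false, if_true, false_implies,
            not_false_eq_true, forall_const, true_and]
          simpa using this
      · have h4 : ¬ p ^ t ∣ Nat.gcd (a i) (gl a l') := fun h => h1 (h.trans (Nat.gcd_dvd_right _ _))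
        have := ih2 h1
        by_cases h3 : p ^ t ∣ a i
        · have h2 : p ^ t ∣ Nat.lcm (a i) (gl a l') := h3.trans (Nat.dvd_lcm_left _ _)
          simp only [h2, h3, h4, decide_true, if_true, false_implies, not_false_eq_true,
            forall_const, true_and]
          omega
        · have h2 : ¬ p ^ t ∣ Nat.lcm (a i) (gl a l') := fun h =>
            (prime_pow_dvd_lcm hp hai hg' h).elim h3 h1
          simp only [h2, h3, h4, decide_false, false_implies, not_false_eq_true,
            forall_const, true_and]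
          simpa using this

theorem lc_pos {a : ι → ℕ} : ∀ (l : List ι), (∀ i ∈ l, 0 < a i) → ∀ x ∈ lc a l, 0 < x := by
  intro l
  induction l with
  | nil => intro _ x hx; simp [lc] at hx
  | cons i l ih =>
    intro ha
    cases l with
    | nil => intro x hx; simp [lc] at hx
    | cons k l =>
      intro x hx
      rw [lc] at hx
      rcases List.mem_cons.1 hx with rfl | hx
      · exact Nat.lcm_pos (ha i (by simp)) (gl_pos (by simp) fun j hj => ha j (by simp [hj]))
      · exact ih (fun j hj => ha j (by simp [hj])) x hx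

theorem length_lc {a : ι → ℕ} : ∀ (l : List ι), (lc a l).length = l.length - 1 := by
  intro l
  induction l with
  | nil => rfl
  | cons i l ih =>
    cases l with
    | nil => rfl
    | cons k l =>
      rw [lc, List.length_cons, ih]
      simp

theorem lc_dvd {a : ι → ℕ} {L : ℕ} : ∀ (l : List ι), (∀ i ∈ l, a i ∣ L) → ∀ x ∈ lc a l, x ∣ L := by
  intro l
  induction l with
  | nil => intro _ x hx; simp [lc] at hx
  | cons i l ih =>
    intro ha
    cases l with
    | nil => intro x hx; simp [lc] at hx
    | cons k l =>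
      intro x hx
      rw [lc] at hx
      rcases List.mem_cons.1 hx with rfl | hx
      · exact Nat.lcm_dvd (ha i (by simp)) ((gl_dvd a _ k (by simp)).trans (ha k (by simp)))
      · exact ih (fun j hj => ha j (by simp [hj])) x hx

end Pool.Agent.W5h90.Fuj
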