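import Pool.Agent.H552R3.Tsen.Zero
import Pool.Agent.W5h90.Fuj.Brauer

/-!
# Freeness from the arithmetic of weights and degrees

The weights `a i` and degrees `d j` of equations whose common zeros, apart from the origin, have
trivial stabilizers under the torus action satisfy `#{i : g ∣ a i} ≤ #{j : g ∣ d j}` for all
`g ≥ 2`. If the degrees form a chain for divisibility, up to factors prime to the weights, this
implies that the conductor of the semigroup at each zero is at most
`∑ (d j - 1) - ∑ (a i - 1)`.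
-/

set_option autoImplicit false

namespace Pool.Agent.W5h90.Fuj

open MvPolynomial

theorem eval_zero_of_weighted {ι : Type*} {a : ι → ℕ} {f : MvPolynomial ι ℂ} {d : ℕ} (hd : 0 < d)
    (hf : IsWeightedHomogeneous a f d) : eval (0 : ι → ℂ) f = 0 := by
  have h1 : eval (0 : ι → ℂ) f = constantCoeff f := by
    rw [← MvPolynomial.eval_zero]
  rw [h1, constantCoeff_eq]
  by_contra hne
  have h2 := hf hne
  rw [map_zero] at h2
  omega

theorem card_le {ι κ : Type} [Fintype ι] [DecidableEq ι] [Fintype κ] (a : ι → ℕ) (d : κ → ℕ)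
    (hd : ∀ j, 0 < d j) (f : κ → MvPolynomial ι ℂ) (hf : ∀ j, IsWeightedHomogeneous a (f j) (d j))
    (hgcd : ∀ v : ι → ℂ, v ≠ 0 → (∀ j, eval v (f j) = 0) →
      ∀ g : ℕ, (∀ i, v i ≠ 0 → g ∣ a i) → g = 1) (g : ℕ) (hg : 2 ≤ g) :
    (Finset.univ.filter fun i => g ∣ a i).card ≤ (Finset.univ.filter fun j => g ∣ d j).card := by
  classical
  by_contra hcon
  push Not at hcon
  let θ : ι → MvPolynomial {i // g ∣ a i} ℂ := fun i => if h : g ∣ a i then X ⟨i, h⟩ else 0
  let P : {j // g ∣ d j} → MvPolynomial {i // g ∣ a i} ℂ := fun j => aeval θ (f j)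
  let ext : ({i // g ∣ a i} → ℂ) → ι → ℂ := fun w i => if h : g ∣ a i then w ⟨i, h⟩ else 0
  have hev : ∀ (w : {i // g ∣ a i} → ℂ) (p : MvPolynomial ι ℂ),
      eval w (aeval θ p) = eval (ext w) p := by
    intro w p
    have h1 : (eval w).comp (aeval θ : MvPolynomial ι ℂ →ₐ[ℂ] _).toRingHom = eval (ext w) := by
      apply MvPolynomial.ringHom_ext
      · intro r; simp
      · intro i
        simp only [RingHom.comp_apply, AlgHom.toRingHom_eq_coe, RingHom.coe_coe, aeval_X, eval_X,
          θ, ext]
        split_ifs with h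
        · simp
        · simp
    exact congrArg (fun φ => φ p) (congrArg DFunLike.coe h1)
  obtain ⟨w, hw0, hw⟩ := Pool.Agent.H552R3.Tsen.exists_common_zero P (fun j => by
    show eval 0 (aeval θ (f j)) = 0
    rw [hev]
    have h1 : ext 0 = 0 := by
      funext i
      simp [ext]
    rw [h1]
    exact eval_zero_of_weighted (hd j) (hf j)) (by
      rw [Fintype.card_subtype, Fintype.card_subtype]
      exact hcon)
  have hv0 : ext w ≠ 0 := by
    intro h
    apply hw0
    funext i
    have := congrFun h i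
    simpa [ext, i.2] using this
  have hv : ∀ j, eval (ext w) (f j) = 0 := by
    intro j
    by_cases hj : g ∣ d j
    · rw [← hev]
      exact hw ⟨j, hj⟩
    · rw [eval_eq']
      refine Finset.sum_eq_zero fun m hm => ?_
      have h1 := hf j (mem_support_iff.1 hm)
      obtain ⟨i, hi, hi2⟩ : ∃ i, m i ≠ 0 ∧ ¬ g ∣ a i := by
        by_contra hcon
        push Not at hcon
        apply hj
        rw [← h1, Finsupp.weight_apply, Finsupp.sum]
        refine Finset.dvd_sum fun i hi => ?_
        exact Dvd.dvd.mul_left (hcon i (Finsupp.mem_support_iff.1 hi)) _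
      rw [Finset.prod_eq_zero (Finset.mem_univ i), mul_zero]
      simp [ext, hi2, hi]
  have := hgcd (ext w) hv0 hv g (fun i hi => by
    by_contra hcon
    apply hi
    simp [ext, hcon])
  omega

theorem exists_prime_pow {κ : Type} [Fintype κ] (d : κ → ℕ) {L : ℕ} (hL : 0 < L)
    (hchain : ∀ j j', Nat.gcd (d j) L ∣ Nat.gcd (d j') L ∨ Nat.gcd (d j') L ∣ Nat.gcd (d j) L)
    {g : ℕ} (hg : 2 ≤ g) (hgL : g ∣ L) :
    ∃ p t : ℕ, p.Prime ∧ 1 ≤ t ∧ p ^ t ∣ g ∧ ∀ j, p ^ t ∣ d j → g ∣ d j := by
  classical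
  by_cases h : ∀ j, g ∣ d j
  · exact ⟨g.minFac, 1, Nat.minFac_prime (by omega), le_rfl, by simpa using Nat.minFac_dvd g,
      fun j _ => h j⟩
  push Not at h
  obtain ⟨j0, hj0⟩ := h
  obtain ⟨j1, hj1, hmax⟩ := Finset.exists_max_image (Finset.univ.filter fun j => ¬ g ∣ d j)
    (fun j => Nat.gcd (d j) L) ⟨j0, by simp [hj0]⟩
  rw [Finset.mem_filter] at hj1
  have h1 : ¬ g ∣ Nat.gcd (d j1) L := fun h => hj1.2 (h.trans (Nat.gcd_dvd_left _ _))
  rw [Nat.dvd_iff_prime_pow_dvd_dvd] at h1
  push Not at h1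
  obtain ⟨p, t, hp, ht, ht2⟩ := h1
  refine ⟨p, t, hp, ?_, ht, fun j hj => ?_⟩
  · rcases Nat.eq_zero_or_pos t with rfl | ht0
    · exact absurd (by simp) ht2
    · exact ht0
  · by_contra hgj
    have h2 := hmax j (by simp [hgj])
    have h3 : p ^ t ∣ Nat.gcd (d j) L := Nat.dvd_gcd hj (ht.trans hgL)
    rcases hchain j j1 with h4 | h4
    · exact ht2 (h3.trans h4)
    · have h5 := Nat.le_of_dvd (Nat.gcd_pos_of_pos_right _ hL) h4
      have h6 : Nat.gcd (d j) L = Nat.gcd (d j1) L := le_antisymm h2 h5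
      exact ht2 (h6 ▸ h3)

theorem lcm_pos' {ι : Type} [Fintype ι] (a : ι → ℕ) (ha : ∀ i, 0 < a i) :
    0 < Finset.univ.lcm a := by
  rw [Nat.pos_iff_ne_zero]
  intro h
  rw [Finset.lcm_eq_zero_iff] at h
  obtain ⟨i, _, hi⟩ := h
  exact (ha i).ne' hi

theorem countP_toList {ι : Type} (s : Finset ι) (p : ι → Prop) [DecidablePred p] :
    s.toList.countP (fun i => p i) = (s.filter p).card := by
  have h1 : s.toList.countP (fun i => p i) = Multiset.countP p (s.toList : Multiset ι) := rfl
  rw [h1, Finset.coe_toList, Multiset.countP_eq_card_filter]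
  rfl

/-- The conductor bound: `e` is a combination of the weights of the nonzero coordinates of `v`. -/
theorem exists_weight {ι κ : Type} [Fintype ι] [DecidableEq ι] [Fintype κ] (n : ℕ)
    (hcard : Fintype.card ι = n + Fintype.card κ + 1) (a : ι → ℕ) (ha : ∀ i, 0 < a i)
    (d : κ → ℕ) (hd : ∀ j, 0 < d j)
    (hN : ∀ g, 2 ≤ g → g ∣ Finset.univ.lcm a → ∃ p t : ℕ, p.Prime ∧ 1 ≤ t ∧ p ^ t ∣ g ∧
      (Finset.univ.filter fun i => p ^ t ∣ a i).card ≤ (Finset.univ.filter fun j => g ∣ d j).card)
    (S : Finset ι) (hS : S.Nonempty) (hgcd : ∀ g, (∀ i ∈ S, g ∣ a i) → g = 1)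
    (e : ℕ) (he : ∑ j, d j + n + 1 ≤ e + ∑ i, a i) :
    ∃ w : ι →₀ ℕ, (∀ i, w i ≠ 0 → i ∈ S) ∧ Finsupp.weight a w = e := by
  classical
  set L := Finset.univ.lcm a with hLdef
  have haL : ∀ i, a i ∣ L := fun i => Finset.dvd_lcm (Finset.mem_univ i)
  set l := S.toList with hl
  have hlne : l ≠ [] := by
    rw [hl]
    intro h
    rw [Finset.toList_eq_nil] at h
    exact hS.ne_empty h
  have hg1 : gl a l = 1 := hgcd _ fun i hi => gl_dvd a l i (Finset.mem_toList.2 hi)
  have key : (lc a l ++ (Sᶜ.toList.map a)).sum ≤ (Finset.univ.toList.map d).sum + n := by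
    refine sum_le_of_count ?_ ?_ ?_ ?_
    · intro x hx
      rcases List.mem_append.1 hx with hx | hx
      · exact lc_pos l (fun i _ => ha i) x hx
      · obtain ⟨i, _, rfl⟩ := List.mem_map.1 hx
        exact ha i
    · intro x hx
      obtain ⟨i, _, rfl⟩ := List.mem_map.1 hx
      exact hd i
    · rw [List.length_append, length_lc, List.length_map, List.length_map, hl,
        Finset.length_toList, Finset.length_toList, Finset.length_toList, Finset.card_univ,
        Finset.card_compl]
      have h1 := Finset.card_pos.2 hS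
      have h2 := Finset.card_le_univ S
      omega
    · intro g hg
      by_cases hgL : g ∣ L
      · obtain ⟨p, t, hp, ht, hpg, hpd⟩ := hN g hg hgL
        have h1 : (lc a l ++ (Sᶜ.toList.map a)).countP (fun x => g ∣ x)
            ≤ (lc a l ++ (Sᶜ.toList.map a)).countP (fun x => p ^ t ∣ x) := by
          refine List.countP_mono_left fun x _ hx => ?_
          rw [decide_eq_true_eq] at hx ⊢
          exact hpg.trans hx
        have h2 : ¬ p ^ t ∣ gl a l := by
          rw [hg1, Nat.dvd_one]
          have := hp.two_le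
          have h3 : p ^ 1 ≤ p ^ t := Nat.pow_le_pow_right hp.pos ht
          rw [pow_one] at h3
          omega
        have h3 := (count_lc (a := a) (t := t) hp l hlne fun i _ => ha i).2 h2
        have h4 : (Sᶜ.toList.map a).countP (fun x => p ^ t ∣ x)
            = Sᶜ.toList.countP fun i => p ^ t ∣ a i := by
          rw [List.countP_map]
          rfl
        have h5 : (Finset.univ.toList.map d).countP (fun x => g ∣ x)
            = Finset.univ.toList.countP fun j => g ∣ d j := by
          rw [List.countP_map]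
          rfl
        have h6 : (S.filter fun i => p ^ t ∣ a i).card + (Sᶜ.filter fun i => p ^ t ∣ a i).card
            = (Finset.univ.filter fun i => p ^ t ∣ a i).card := by
          rw [← Finset.card_union_of_disjoint, ← Finset.filter_union, Finset.union_compl]
          exact Finset.disjoint_filter_filter disjoint_compl_right
        refine h1.trans ?_
        rw [List.countP_append, h3, h4, h5, hl, countP_toList, countP_toList, countP_toList, h6]
        exact hpd
      · have h1 : (lc a l ++ (Sᶜ.toList.map a)).countP (fun x => g ∣ x) = 0 := by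
          rw [List.countP_eq_zero]
          intro x hx
          rw [decide_eq_true_eq]
          intro hgx
          apply hgL
          refine hgx.trans ?_
          rcases List.mem_append.1 hx with hx | hx
          · exact lc_dvd l (fun i _ => haL i) x hx
          · obtain ⟨i, _, rfl⟩ := List.mem_map.1 hx
            exact haL i
        rw [h1]
        exact Nat.zero_le _
  rw [List.sum_append, Finset.sum_map_toList, Finset.sum_map_toList] at key
  have key' : (lc a l).sum + ∑ i ∈ Sᶜ, a i ≤ ∑ j, d j + n := key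
  have h1 : (l.map a).sum = ∑ i ∈ S, a i := by rw [hl, Finset.sum_map_toList]
  have h2 : ∑ i ∈ S, a i + ∑ i ∈ Sᶜ, a i = ∑ i, a i := Finset.sum_add_sum_compl S a
  obtain ⟨w, hw1, hw2⟩ := brauer a l hlne (fun i _ => ha i) (e : ℤ) (by rw [hg1]; simp) (by
    rw [hg1, h1]
    have h3 : (lc a l).sum + 1 ≤ e + ∑ i ∈ S, a i := by omega
    have h4 : (((lc a l).sum + 1 : ℕ) : ℤ) ≤ ((e + ∑ i ∈ S, a i : ℕ) : ℤ) := Int.ofNat_le.2 h3
    rw [Nat.cast_add, Nat.cast_add] at h4
    exact h4)
  exact ⟨w, fun i hi => Finset.mem_toList.1 (hw1 i hi), by exact_mod_cast hw2⟩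

end Pool.Agent.W5h90.Fuj
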